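import Mathlib

/-!
Existence of auxiliary polynomials by linear algebra, and the vanishing property.
-/

namespace Pool.Agent.helper12.RS

open Polynomial Finset

variable {K : Type*} [Field K]

/-- Polynomials `V_b` of degree at most `v`, not all zero, with vanishing moments of order
below `J`, and divisible by `(X - a)^L` for all `(a, b)` in a given set. -/
theorem exists_aux (B : Finset K) (bad : Finset (K × K)) (J L v : ℕ)
    (h : J * (v + 1) + bad.card * L < B.card * (v + 1)) :
    ∃ V : K → K[X], (∃ b ∈ B, V b ≠ 0) ∧ (∀ b, (V b).natDegree ≤ v) ∧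
      (∀ i < J, ∑ b ∈ B, C (b ^ i) * V b = 0) ∧
      (∀ q ∈ bad, X ^ L ∣ taylor q.1 (V q.2)) := by
  classical
  let P : (Fin (v + 1) → K) →ₗ[K] K[X] :=
    (degreeLT K (v + 1)).subtype ∘ₗ (degreeLTEquiv K (v + 1)).symm.toLinearMap
  have hPinj : Function.Injective P := by
    intro x y hxy
    have : ((degreeLTEquiv K (v + 1)).symm x : K[X]) = ((degreeLTEquiv K (v + 1)).symm y : K[X]) := hxy
    exact (degreeLTEquiv K (v + 1)).symm.injective (Subtype.ext this)
  have hPdeg : ∀ x, (P x).natDegree ≤ v := by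
    intro x
    have h1 : P x ∈ degreeLT K (v + 1) := ((degreeLTEquiv K (v + 1)).symm x).2
    rw [mem_degreeLT] at h1
    have h2 : (P x).degree < ((v + 1 : ℕ) : WithBot ℕ) := h1
    by_cases h0 : P x = 0
    · rw [h0]; simp
    · rw [Polynomial.degree_eq_natDegree h0] at h2
      have := WithBot.coe_lt_coe.mp h2
      simp only [Nat.cast_id] at this
      omega
  -- extension by zero
  let ext : (B → Fin (v + 1) → K) → K → K[X] :=
    fun x b => if hb : b ∈ B then P (x ⟨b, hb⟩) else 0
  -- the linear conditions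
  let T1 : (B → Fin (v + 1) → K) →ₗ[K] (Fin J → Fin (v + 1) → K) :=
    LinearMap.pi fun i => ∑ b : B, ((b : K) ^ (i : ℕ)) • LinearMap.proj b
  let T2 : (B → Fin (v + 1) → K) →ₗ[K] (bad → Fin L → K) :=
    LinearMap.pi fun q => LinearMap.pi fun i =>
      if hb : q.1.2 ∈ B then
        (Polynomial.lcoeff K (i : ℕ)) ∘ₗ (Polynomial.taylor q.1.1) ∘ₗ P ∘ₗ
          (LinearMap.proj (⟨q.1.2, hb⟩ : B))
      else 0
  let T := T1.prod T2
  have hlt : Module.finrank K ((Fin J → Fin (v + 1) → K) × (bad → Fin L → K))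
      < Module.finrank K (B → Fin (v + 1) → K) := by
    simp only [Module.finrank_prod, Module.finrank_pi_fintype, Module.finrank_self, Finset.sum_const, Finset.card_univ, Fintype.card_fin,
      Fintype.card_coe, smul_eq_mul, mul_one]
    simpa using h
  obtain ⟨x, hx0, hx⟩ : ∃ x, x ≠ 0 ∧ T x = 0 := by
    have := LinearMap.ker_ne_bot_of_finrank_lt (f := T) hlt
    obtain ⟨x, hx, hx0⟩ := (Submodule.ne_bot_iff _).mp this
    exact ⟨x, hx0, hx⟩
  have hx1 : T1 x = 0 := congrArg Prod.fst hx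
  have hx2 : T2 x = 0 := congrArg Prod.snd hx
  refine ⟨ext x, ?_, ?_, ?_, ?_⟩
  · obtain ⟨b, hb⟩ := Function.ne_iff.mp hx0
    refine ⟨b, b.2, ?_⟩
    simp only [ext, b.2, dif_pos]
    intro h1
    apply hb
    apply hPinj
    rw [h1]; simp
  · intro b
    simp only [ext]
    split_ifs with hb
    · exact hPdeg _
    · simp
  · intro i hi
    have h1 : T1 x ⟨i, hi⟩ = 0 := by rw [hx1]; rfl
    have h2 : ∑ b : B, ((b : K) ^ i) • x b = 0 := by
      have : T1 x ⟨i, hi⟩ = ∑ b : B, ((b : K) ^ i) • x b := by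
        simp only [T1, LinearMap.pi_apply, LinearMap.sum_apply, LinearMap.smul_apply,
          LinearMap.proj_apply]
      rw [← this, h1]
    have h3 := congrArg P h2
    rw [map_sum, map_zero] at h3
    rw [← Finset.sum_coe_sort B (fun b => C (b ^ i) * ext x b)]
    rw [← h3]
    refine Finset.sum_congr rfl fun b _ => ?_
    simp only [ext, b.2, dif_pos, map_smul, smul_eq_C_mul]
  · intro q hq
    simp only [ext]
    split_ifs with hb
    · rw [X_pow_dvd_iff]
      intro i hi
      have h1 : T2 x ⟨q, hq⟩ ⟨i, hi⟩ = 0 := by rw [hx2]; rfl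
      have h2 : T2 x ⟨q, hq⟩ ⟨i, hi⟩ = (taylor q.1 (P (x ⟨q.2, hb⟩))).coeff i := by
        simp only [T2, LinearMap.pi_apply]
        rw [dif_pos hb]
        rfl
      rw [← h2, h1]
    · simp

/-- Modulo `X^L`, for `L ≤ k`, the power `(X + c)^(d+k)` with `c = 0` or `c^d = κ` is
congruent to an explicit polynomial. -/
lemma pow_sub_dvd (d k L : ℕ) (hL : L ≤ k) (c κ : K) (hc : c ≠ 0 → c ^ d = κ) :
    (X : K[X]) ^ L ∣ (X + C c) ^ (d + k)
      - ∑ j ∈ range L, C (κ * c ^ (k - j) * (Nat.choose (d + k) j : K)) * X ^ j := by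
  rw [X_pow_dvd_iff]
  intro i hi
  rw [coeff_sub, coeff_X_add_C_pow, finsetSum_coeff]
  simp only [coeff_C_mul, coeff_X_pow]
  rw [Finset.sum_eq_single i]
  · rw [if_pos rfl, mul_one]
    by_cases h0 : c = 0
    · rw [h0, zero_pow (by omega), zero_pow (by omega)]; ring
    · rw [← hc h0, ← pow_add]
      rw [show d + k - i = d + (k - i) by omega]
      ring
  · intro j _ hj
    rw [if_neg (Ne.symm hj), mul_zero]
  · intro h1
    exact absurd (Finset.mem_range.mpr hi) h1

/-- The moments shifted by `a` vanish too. -/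
lemma shifted_moment (B : Finset K) (V : K → K[X]) (J : ℕ)
    (hV : ∀ i < J, ∑ b ∈ B, C (b ^ i) * V b = 0) (a : K) (i : ℕ) (hi : i < J) :
    ∑ b ∈ B, C ((a + b) ^ i) * V b = 0 := by
  have h1 : ∀ b ∈ B, C ((a + b) ^ i) * V b
      = ∑ m ∈ range (i + 1), C (a ^ (i - m) * (Nat.choose i m : K)) * (C (b ^ m) * V b) := by
    intro b _
    rw [add_comm a b, add_pow, map_sum, Finset.sum_mul]
    refine Finset.sum_congr rfl fun m _ => ?_
    simp only [map_mul]
    ring
  rw [Finset.sum_congr rfl h1, Finset.sum_comm]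
  refine Finset.sum_eq_zero fun m hm => ?_
  rw [← Finset.mul_sum, hV m (by have := Finset.mem_range.mp hm; omega), mul_zero]

/-- The vanishing property. -/
theorem vanish (B : Finset K) (V : K → K[X]) (J d k L : ℕ) (κ a : K)
    (hV : ∀ i < J, ∑ b ∈ B, C (b ^ i) * V b = 0) (hk : k < J) (hL : L ≤ k)
    (hbad : ∀ b ∈ B, a + b ≠ 0 → (a + b) ^ d ≠ κ → X ^ L ∣ taylor a (V b)) :
    (X - C a) ^ L ∣ ∑ b ∈ B, V b * (X + C b) ^ (d + k) := by
  classical
  -- the Taylor shift
  have key : X ^ L ∣ ∑ b ∈ B, taylor a (V b) * (X + C (a + b)) ^ (d + k) := by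
    have h1 : ∀ b ∈ B, X ^ L ∣ taylor a (V b) * (X + C (a + b)) ^ (d + k)
        - taylor a (V b) * ∑ j ∈ range L,
            C (κ * (a + b) ^ (k - j) * (Nat.choose (d + k) j : K)) * X ^ j := by
      intro b hb
      rw [← mul_sub]
      by_cases h2 : a + b ≠ 0 → (a + b) ^ d = κ
      · exact Dvd.dvd.mul_left (pow_sub_dvd d k L hL (a + b) κ h2) _
      · rw [Classical.not_imp] at h2
        exact Dvd.dvd.mul_right (hbad b hb h2.1 h2.2) _
    have h2 : ∑ b ∈ B, taylor a (V b) * ∑ j ∈ range L,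
            C (κ * (a + b) ^ (k - j) * (Nat.choose (d + k) j : K)) * X ^ j = 0 := by
      simp_rw [Finset.mul_sum]
      rw [Finset.sum_comm]
      refine Finset.sum_eq_zero fun j hj => ?_
      have h3 := shifted_moment B V J hV a (k - j) (by omega)
      have h4 := congrArg (taylor a) h3
      rw [map_sum, map_zero] at h4
      have h5 : ∀ b ∈ B, taylor a (V b) * (C (κ * (a + b) ^ (k - j) * (Nat.choose (d + k) j : K)) * X ^ j)
          = (C (κ * (Nat.choose (d + k) j : K)) * X ^ j) * taylor a (C ((a + b) ^ (k - j)) * V b) := by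
        intro b _
        rw [taylor_mul, taylor_C]
        simp only [map_mul]
        ring
      rw [Finset.sum_congr rfl h5, ← Finset.mul_sum, h4, mul_zero]
    have h3 := Finset.dvd_sum h1
    rw [Finset.sum_sub_distrib, h2, sub_zero] at h3
    exact h3
  obtain ⟨q, hq⟩ := key
  refine ⟨taylor (-a) q, ?_⟩
  have h1 : taylor a (∑ b ∈ B, V b * (X + C b) ^ (d + k)) = X ^ L * q := by
    rw [← hq, map_sum]
    refine Finset.sum_congr rfl fun b _ => ?_
    rw [taylor_mul, taylor_pow, map_add, taylor_X, taylor_C, map_add, add_assoc]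
  have h2 := congrArg (taylor (-a)) h1
  rw [taylor_taylor, neg_add_cancel, taylor_zero, taylor_mul, taylor_pow, taylor_X] at h2
  rw [h2]
  simp [sub_eq_add_neg]

/-- The degree bound. -/
theorem degree_bound (B : Finset K) (V : K → K[X]) (J e v : ℕ)
    (hV : ∀ i < J, ∑ b ∈ B, C (b ^ i) * V b = 0) (hv : ∀ b, (V b).natDegree ≤ v) :
    (∑ b ∈ B, V b * (X + C b) ^ e).natDegree ≤ e - J + v := by
  classical
  have h1 : ∑ b ∈ B, V b * (X + C b) ^ e
      = ∑ j ∈ range (e + 1), X ^ (e - j) * (C (Nat.choose e j : K) * ∑ b ∈ B, C (b ^ j) * V b) := by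
    simp_rw [Finset.mul_sum]
    rw [Finset.sum_comm]
    refine Finset.sum_congr rfl fun b _ => ?_
    rw [add_comm X (C b), add_pow, Finset.mul_sum]
    refine Finset.sum_congr rfl fun j _ => ?_
    simp only [map_pow, map_natCast]
    ring
  rw [h1]
  refine Polynomial.natDegree_sum_le_of_forall_le _ _ fun j hj => ?_
  by_cases hjJ : j < J
  · rw [hV j hjJ]; simp
  · refine (natDegree_mul_le).trans ?_
    refine Nat.add_le_add ?_ ?_
    · refine (natDegree_X_pow_le _).trans ?_
      omega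
    · refine (natDegree_C_mul_le _ _).trans ?_
      refine Polynomial.natDegree_sum_le_of_forall_le _ _ fun b _ => ?_
      exact (natDegree_C_mul_le _ _).trans (hv b)

end Pool.Agent.helper12.RS
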