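import Mathlib

/-!
Linear independence of the vectors `((X + b)^e)_b` over the polynomial ring, for exponents `e`
that are distinct in the field.
-/

namespace Pool.Agent.helper12.RS

open Polynomial Finset

variable {K : Type*} [Field K]

/-- The functional `f ↦ ∑ f(b) V_b`, expanded in the moments. -/
lemma sum_eval_eq (B : Finset K) (V : K → K[X]) (f : K[X]) (n : ℕ) (hf : f.natDegree < n) :
    ∑ b ∈ B, C (f.eval b) * V b
      = ∑ i ∈ range n, C (f.coeff i) * ∑ b ∈ B, C (b ^ i) * V b := by
  simp_rw [Finset.mul_sum]
  rw [Finset.sum_comm]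
  refine Finset.sum_congr rfl fun b _ => ?_
  rw [Polynomial.eval_eq_sum_range' hf, map_sum, Finset.sum_mul]
  refine Finset.sum_congr rfl fun i _ => ?_
  rw [map_mul, mul_assoc]

/-- A combination of binomials vanishing at enough points is trivial. -/
lemma binom_comb_zero (n : ℕ) (E : Finset ℕ) (hE : E.card = n)
    (hinj : Set.InjOn (fun e : ℕ => (e : K)) E)
    (hfac : ∀ j < n, ((Nat.factorial j : ℕ) : K) ≠ 0) (w : ℕ → K)
    (h : ∀ e ∈ E, ∑ j ∈ range n, w j * (Nat.choose e j : K) = 0) :
    ∀ j < n, w j = 0 := by
  classical
  set W : K[X] := ∑ j ∈ range n, C (w j / (Nat.factorial j : K)) * descPochhammer K j with hW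
  have hev : ∀ t : ℕ, W.eval (t : K) = ∑ j ∈ range n, w j * (Nat.choose t j : K) := by
    intro t
    rw [hW, eval_finsetSum]
    refine Finset.sum_congr rfl fun j hj => ?_
    have hj' := hfac j (Finset.mem_range.mp hj)
    rw [eval_mul, eval_C, descPochhammer_eval_eq_descFactorial,
      Nat.descFactorial_eq_factorial_mul_choose, Nat.cast_mul]
    field_simp
  have hW0 : W = 0 := by
    by_cases hn : n = 0
    · subst hn
      simp [hW]
    have hdeg : W.degree < (n : ℕ) := by
      rw [hW]
      refine (Polynomial.degree_sum_le _ _).trans_lt ?_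
      rw [Finset.sup_lt_iff (by exact_mod_cast WithBot.bot_lt_coe n)]
      intro j hj
      refine (Polynomial.degree_le_natDegree).trans_lt ?_
      have h1 : (descPochhammer K j).natDegree = j := by
        simp
      have h2 : (C (w j / (Nat.factorial j : K)) * descPochhammer K j).natDegree ≤ j :=
        (natDegree_C_mul_le _ _).trans h1.le
      exact_mod_cast lt_of_le_of_lt h2 (Finset.mem_range.mp hj)
    have himg : (E.image (fun e : ℕ => (e : K))).card = n := by
      rw [Finset.card_image_of_injOn hinj, hE]
    refine Polynomial.eq_zero_of_degree_lt_of_eval_finset_eq_zero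
      (E.image (fun e : ℕ => (e : K))) (by rw [himg]; exact hdeg) ?_
    intro x hx
    obtain ⟨e, he, rfl⟩ := Finset.mem_image.mp hx
    rw [hev e]
    exact h e he
  intro j
  induction j using Nat.strong_induction_on with
  | _ j ih =>
    intro hj
    have h1 := hev j
    rw [hW0, eval_zero] at h1
    rw [Finset.sum_eq_single j] at h1
    · simpa using h1.symm
    · intro i hi hij
      rcases lt_or_gt_of_ne hij with h2 | h2
      · rw [ih i h2 (Finset.mem_range.mp hi), zero_mul]
      · rw [Nat.choose_eq_zero_of_lt h2]; simp
    · intro h2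
      exact absurd (Finset.mem_range.mpr hj) h2

/-- The vectors `((X + b)^e)_{b ∈ B}`, for `|B|` exponents distinct in the field, are
independent over the polynomial ring. -/
theorem indep (B : Finset K) (E : Finset ℕ) (hE : E.card = B.card)
    (hinj : Set.InjOn (fun e : ℕ => (e : K)) E)
    (hfac : ∀ j < B.card, ((Nat.factorial j : ℕ) : K) ≠ 0) (V : K → K[X])
    (h : ∀ e ∈ E, ∑ b ∈ B, V b * (X + C b) ^ e = 0) :
    ∀ b ∈ B, V b = 0 := by
  classical
  set n := B.card with hn
  set U : ℕ → K[X] := fun j => ∑ b ∈ B, C (b ^ j) * V b with hU
  -- expansion of the relations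
  have hrel : ∀ e ∈ E, ∑ j ∈ range (e + 1), X ^ (e - j) * (C (Nat.choose e j : K) * U j) = 0 := by
    intro e he
    have h1 := h e he
    rw [← h1]
    simp_rw [hU, Finset.mul_sum]
    rw [Finset.sum_comm]
    refine Finset.sum_congr rfl fun b _ => ?_
    rw [add_comm X (C b), add_pow, Finset.mul_sum]
    refine Finset.sum_congr rfl fun j _ => ?_
    simp only [map_pow, map_natCast]
    ring
  -- the monic polynomial of B
  set Q : K[X] := ∏ b ∈ B, (X - C b) with hQ
  have hQm : Q.Monic := monic_prod_of_monic _ _ fun b _ => monic_X_sub_C b
  have hQd : Q.natDegree = n := by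
    rw [hQ, natDegree_prod_of_monic _ _ fun b _ => monic_X_sub_C b]
    simp [hn]
  have hQe : ∀ b ∈ B, Q.eval b = 0 := by
    intro b hb
    rw [hQ, eval_prod]
    exact Finset.prod_eq_zero hb (by simp)
  -- moments beyond n
  have hbig : ∀ j, 0 < n → U j = ∑ i ∈ range n, C ((X ^ j %ₘ Q).coeff i) * U i := by
    intro j hn0
    have hd : (X ^ j %ₘ Q).natDegree < n := by
      have := natDegree_modByMonic_lt (X ^ j : K[X]) hQm (by
        intro h1
        rw [h1, natDegree_one] at hQd
        omega)
      rwa [hQd] at this
    rw [← sum_eval_eq B V (X ^ j %ₘ Q) n hd]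
    refine Finset.sum_congr rfl fun b hb => ?_
    congr 2
    have := Polynomial.modByMonic_add_div (X ^ j : K[X]) Q
    have h2 := congrArg (Polynomial.eval b) this
    rw [eval_add, eval_mul, hQe b hb, zero_mul, add_zero] at h2
    rw [h2]; simp
  -- the downward induction on the weight
  have hP : ∀ D : ℕ, ∀ j < n, ∀ l, D + j ≤ l + n → (U j).coeff l = 0 := by
    -- large weights
    set M := n + 1 + ∑ b ∈ B, (V b).natDegree with hM
    have hlarge : ∀ D, M ≤ D → ∀ j < n, ∀ l, D + j ≤ l + n → (U j).coeff l = 0 := by
      intro D hD j _ l hl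
      rw [hU]
      simp only [finsetSum_coeff]
      refine Finset.sum_eq_zero fun b hb => ?_
      rw [coeff_C_mul, coeff_eq_zero_of_natDegree_lt, mul_zero]
      have : (V b).natDegree ≤ ∑ b ∈ B, (V b).natDegree :=
        Finset.single_le_sum (f := fun b => (V b).natDegree) (fun _ _ => Nat.zero_le _) hb
      omega
    -- one step
    have hstep : ∀ D, (∀ j < n, ∀ l, D + 1 + j ≤ l + n → (U j).coeff l = 0) →
        (∀ j < n, ∀ l, D + j ≤ l + n → (U j).coeff l = 0) := by
      intro D hD
      set w : ℕ → K := fun j => if n ≤ D + j then (U j).coeff (D + j - n) else 0 with hw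
      have hwbig : ∀ j, n ≤ j → w j = 0 := by
        intro j hj
        rw [hw]
        simp only
        rw [if_pos (by omega)]
        rcases Nat.eq_zero_or_pos n with h0 | h0
        · have hB : B = ∅ := by rw [← Finset.card_eq_zero, ← hn, h0]
          rw [hU, hB]; simp
        rw [hbig j h0]
        simp only [finsetSum_coeff]
        refine Finset.sum_eq_zero fun i hi => ?_
        rw [coeff_C_mul, hD i (Finset.mem_range.mp hi) _ ?_, mul_zero]
        have := Finset.mem_range.mp hi
        omega
      have hw0 : ∀ j < n, w j = 0 := by
        refine binom_comb_zero n E hE hinj hfac w ?_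
        intro e he
        have h1 := hrel e he
        have h2 : ∑ j ∈ range (e + 1), X ^ (n + (e - j)) * (C (Nat.choose e j : K) * U j) = 0 := by
          have := congrArg (fun q => X ^ n * q) h1
          simp only [mul_zero, Finset.mul_sum] at this
          rw [← this]
          refine Finset.sum_congr rfl fun j _ => ?_
          rw [pow_add]; ring
        have h3 := congrArg (fun q => q.coeff (e + D)) h2
        simp only [finsetSum_coeff, coeff_zero] at h3
        have h4 : ∀ j ∈ range (e + 1),
            (X ^ (n + (e - j)) * (C (Nat.choose e j : K) * U j)).coeff (e + D)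
              = w j * (Nat.choose e j : K) := by
          intro j hj
          have hj' : j ≤ e := by have := Finset.mem_range.mp hj; omega
          rw [coeff_X_pow_mul', hw]
          simp only
          by_cases h5 : n ≤ D + j
          · rw [if_pos (by omega), if_pos h5, coeff_C_mul, mul_comm]
            congr 2
            omega
          · rw [if_neg (by omega), if_neg h5, zero_mul]
        rw [Finset.sum_congr rfl h4] at h3
        -- compare the ranges
        have h6 : ∑ j ∈ range (max (e + 1) n), w j * (Nat.choose e j : K)
            = ∑ j ∈ range (e + 1), w j * (Nat.choose e j : K) := by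
          symm
          refine Finset.sum_subset (by intro x; simp; omega) ?_
          intro x _ hx
          have : e < x := by
            by_contra hc
            exact hx (Finset.mem_range.mpr (by omega))
          rw [Nat.choose_eq_zero_of_lt this]; simp
        have h7 : ∑ j ∈ range (max (e + 1) n), w j * (Nat.choose e j : K)
            = ∑ j ∈ range n, w j * (Nat.choose e j : K) := by
          symm
          refine Finset.sum_subset (by intro x; simp; omega) ?_
          intro x _ hx
          rw [hwbig x (by by_contra hc; exact hx (Finset.mem_range.mpr (by omega))), zero_mul]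
        rw [← h7, h6, h3]
      intro j hj l hl
      rcases Nat.lt_or_ge (D + j) (l + n) with h1 | h1
      · exact hD j hj l (by omega)
      · have h2 := hw0 j hj
        rw [hw] at h2
        simp only at h2
        rw [if_pos (by omega)] at h2
        rw [← h2]
        congr 1
        omega
    have hall : ∀ t D, M ≤ D + t → ∀ j < n, ∀ l, D + j ≤ l + n → (U j).coeff l = 0 := by
      intro t
      induction t with
      | zero => intro D hD; exact hlarge D hD
      | succ t ih => intro D hD; exact hstep D (ih (D + 1) (by omega))
    intro D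
    exact hall M D (by omega)
  have hU0 : ∀ j < n, U j = 0 := by
    intro j hj
    ext l
    rw [coeff_zero]
    exact hP 0 j hj l (by omega)
  intro b hb
  have hn0 : 0 < n := Finset.card_pos.mpr ⟨b, hb⟩
  set f : K[X] := ∏ c ∈ B.erase b, (X - C c) with hf
  have hfd : f.natDegree < n := by
    rw [hf, natDegree_prod_of_monic _ _ fun c _ => monic_X_sub_C c]
    simp [Finset.card_erase_of_mem hb]
    omega
  have h1 := sum_eval_eq B V f n hfd
  rw [Finset.sum_eq_zero (s := range n) (fun i hi => by
    have := hU0 i (Finset.mem_range.mp hi)
    rw [hU] at this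
    simp only at this
    rw [this, mul_zero])] at h1
  rw [Finset.sum_eq_single b] at h1
  · have hfb : f.eval b ≠ 0 := by
      rw [hf, eval_prod, Finset.prod_ne_zero_iff]
      intro c hc
      simp only [eval_sub, eval_X, eval_C]
      rw [sub_ne_zero]
      exact (Finset.ne_of_mem_erase hc).symm
    rcases mul_eq_zero.mp h1 with h2 | h2
    · exact absurd (C_eq_zero.mp h2) hfb
    · exact h2
  · intro c hc hcb
    have : f.eval c = 0 := by
      rw [hf, eval_prod]
      exact Finset.prod_eq_zero (Finset.mem_erase.mpr ⟨hcb, hc⟩) (by simp)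
    rw [this]; simp
  · intro h2; exact absurd hb h2

end Pool.Agent.helper12.RS
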