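import Mathlib
import Pool.Agent.helper12.RS.Indep
import Pool.Agent.helper12.RS.Exist

/-!
The robust Stepanov inequality: a bound for the sizes of `A`, `B` in terms of the number of
pairs `(a, b)` with `(a + b)^d ≠ κ`.
-/

namespace Pool.Agent.helper12.RS

open Polynomial Finset

variable {K : Type*} [Field K] [DecidableEq K]

/-- **The robust Stepanov inequality.** If `N` is the number of pairs with `a + b ≠ 0` and
`(a + b)^d ≠ κ`, then `(|B| - 2r) (r|A| - N) ≤ r (d - 1)`. -/
theorem core (p : ℕ) [hp : Fact p.Prime] [CharP K p] (A B : Finset K)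
    (d r L : ℕ) (hL : L + 2 * r = B.card) (hr : 1 ≤ r) (hrd : r ≤ d) (hdp : d + L + r ≤ p)
    (κ : K) :
    r * (L * A.card) + r
      ≤ r * d + L * ((A ×ˢ B).filter fun q => q.1 + q.2 ≠ 0 ∧ (q.1 + q.2) ^ d ≠ κ).card := by
  classical
  set bad := (A ×ˢ B).filter fun q => q.1 + q.2 ≠ 0 ∧ (q.1 + q.2) ^ d ≠ κ with hbad
  set N := bad.card with hN
  set J := L + r with hJ
  set v := L * N / r with hv
  have hrv : L * N < r * (v + 1) := by
    rw [hv]
    have := Nat.div_add_mod (L * N) r
    have h2 := Nat.mod_lt (L * N) (show r > 0 by omega)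
    rw [mul_add, mul_one]
    omega
  have hrv' : r * v ≤ L * N := by
    rw [hv]; exact Nat.mul_div_le _ _
  have hdim : J * (v + 1) + bad.card * L < B.card * (v + 1) := by
    have h1 : B.card * (v + 1) = J * (v + 1) + r * (v + 1) := by
      rw [← hL, ← Nat.add_mul]; congr 1; omega
    rw [h1, ← hN, mul_comm N L]
    omega
  obtain ⟨V, ⟨b0, hb0, hVb0⟩, hVdeg, hVm, hVbad⟩ := exists_aux B bad J L v hdim
  -- some k gives a nonzero polynomial
  obtain ⟨k, hk1, hk2, hΨ⟩ : ∃ k, L ≤ k ∧ k < J ∧ ∑ b ∈ B, V b * (X + C b) ^ (d + k) ≠ 0 := by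
    by_contra hcon
    push Not at hcon
    apply hVb0
    set E : Finset ℕ := range J ∪ (Finset.Ico (d + L) (d + J)) with hE
    have hdisj : Disjoint (range J) (Finset.Ico (d + L) (d + J)) := by
      rw [Finset.disjoint_left]
      intro x hx hx2
      have h1 := Finset.mem_range.mp hx
      have h2 := (Finset.mem_Ico.mp hx2).1
      omega
    have hEc : E.card = B.card := by
      rw [hE, Finset.card_union_of_disjoint hdisj, Finset.card_range, Nat.card_Ico, ← hL]
      omega
    have hElt : ∀ e ∈ E, e < p := by
      intro e he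
      rw [hE, Finset.mem_union] at he
      rcases he with h1 | h1
      · have := Finset.mem_range.mp h1; omega
      · have := Finset.mem_Ico.mp h1; omega
    refine indep B E hEc ?_ ?_ V ?_ b0 hb0
    · intro x hx y hy hxy
      have hx' := hElt x hx
      have hy' := hElt y hy
      have h1 : (x : K) = (y : K) := hxy
      have h2 := (CharP.natCast_eq_natCast K p).mp h1
      rw [Nat.ModEq, Nat.mod_eq_of_lt hx', Nat.mod_eq_of_lt hy'] at h2
      exact h2
    · intro j hj h1
      have h2 := (CharP.cast_eq_zero_iff K p _).mp h1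
      have h3 := (hp.out.dvd_factorial).mp h2
      have : B.card ≤ p := by omega
      omega
    · intro e he
      rw [hE, Finset.mem_union] at he
      rcases he with h1 | h1
      · have h1' := Finset.mem_range.mp h1
        have h2 : ∀ b ∈ B, V b * (X + C b) ^ e
            = ∑ m ∈ range (e + 1), X ^ (e - m) * (C (Nat.choose e m : K) * (C (b ^ m) * V b)) := by
          intro b _
          rw [add_comm X (C b), add_pow, Finset.mul_sum]
          refine Finset.sum_congr rfl fun j _ => ?_
          simp only [map_pow, map_natCast]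
          ring
        rw [Finset.sum_congr rfl h2, Finset.sum_comm]
        refine Finset.sum_eq_zero fun m hm => ?_
        have hm' := Finset.mem_range.mp hm
        rw [← Finset.mul_sum, ← Finset.mul_sum, hVm m (by omega), mul_zero, mul_zero]
      · have h1' := Finset.mem_Ico.mp h1
        have := hcon (e - d) (by omega) (by omega)
        rwa [show d + (e - d) = e by omega] at this
  -- divisibility
  set Ψ := ∑ b ∈ B, V b * (X + C b) ^ (d + k) with hΨd
  have hdvd : ∏ a ∈ A, (X - C a) ^ L ∣ Ψ := by
    refine Finset.prod_dvd_of_coprime ?_ ?_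
    · intro a _ a' _ haa
      exact IsCoprime.pow (Polynomial.isCoprime_X_sub_C_of_isUnit_sub
        (sub_ne_zero.mpr haa).isUnit)
    · intro a ha
      refine vanish B V J d k L κ a hVm hk2 hk1 ?_
      intro b hb hne0 hne
      exact hVbad (a, b) (Finset.mem_filter.mpr ⟨Finset.mem_product.mpr ⟨ha, hb⟩, hne0, hne⟩)
  have hdeg : (∏ a ∈ A, (X - C a) ^ L).natDegree = A.card * L := by
    rw [natDegree_prod_of_monic _ _ fun a _ => (monic_X_sub_C a).pow _]
    simp [natDegree_pow]
  have h1 := Polynomial.natDegree_le_of_dvd hdvd hΨ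
  rw [hdeg] at h1
  have h2 := degree_bound B V J (d + k) v hVm hVdeg
  rw [← hΨd] at h2
  have h3 : L * A.card + 1 ≤ d + v := by
    rw [mul_comm]; omega
  calc r * (L * A.card) + r = r * (L * A.card + 1) := by ring
    _ ≤ r * (d + v) := Nat.mul_le_mul_left r h3
    _ = r * d + r * v := by ring
    _ ≤ r * d + L * N := by omega

end Pool.Agent.helper12.RS
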