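import Mathlib
import Pool.Agent.helper12.RS.Core

/-!
The coset theorem: if `|A||B| ≥ (1+ε)d` then a positive proportion of the pairs has `a + b ≠ 0`
and `(a + b)^d ≠ κ`.
-/

namespace Pool.Agent.helper12.RS

open Polynomial Finset

variable {K : Type*} [Field K] [DecidableEq K]

/-- For fixed `a`, at most `d + 1` elements `b` have `a + b = 0` or `(a + b)^d = κ`. -/
lemma good_le (B : Finset K) (d : ℕ) (hd : 0 < d) (κ a : K) :
    (B.filter fun b => ¬ (a + b ≠ 0 ∧ (a + b) ^ d ≠ κ)).card ≤ d + 1 := by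
  classical
  have h1 : ((B.filter fun b => ¬ (a + b ≠ 0 ∧ (a + b) ^ d ≠ κ)).image fun b => a + b)
      ⊆ insert 0 (nthRoots d κ).toFinset := by
    intro x hx
    obtain ⟨b, hb, rfl⟩ := Finset.mem_image.mp hx
    rw [Finset.mem_insert, Multiset.mem_toFinset, mem_nthRoots hd]
    have h2 := (Finset.mem_filter.mp hb).2
    by_cases h3 : a + b = 0
    · left; exact h3
    · right
      by_contra h4
      exact h2 ⟨h3, h4⟩
  calc (B.filter fun b => ¬ (a + b ≠ 0 ∧ (a + b) ^ d ≠ κ)).card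
      = ((B.filter fun b => ¬ (a + b ≠ 0 ∧ (a + b) ^ d ≠ κ)).image fun b => a + b).card :=
        (Finset.card_image_of_injective _ (add_right_injective a)).symm
    _ ≤ (insert 0 (nthRoots d κ).toFinset).card := Finset.card_le_card h1
    _ ≤ (nthRoots d κ).toFinset.card + 1 := Finset.card_insert_le _ _
    _ ≤ (nthRoots d κ).card + 1 := Nat.add_le_add_right (Multiset.toFinset_card_le _) 1
    _ ≤ d + 1 := Nat.add_le_add_right (card_nthRoots d κ) 1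

/-- Bad pairs, trivial bound. -/
lemma bad_ge_trivial (A B : Finset K) (d : ℕ) (hd : 0 < d) (κ : K) :
    A.card * B.card ≤ A.card * (d + 1)
      + ((A ×ˢ B).filter fun q => q.1 + q.2 ≠ 0 ∧ (q.1 + q.2) ^ d ≠ κ).card := by
  classical
  have h1 : ((A ×ˢ B).filter fun q => q.1 + q.2 ≠ 0 ∧ (q.1 + q.2) ^ d ≠ κ).card
      = ∑ a ∈ A, (B.filter fun b => a + b ≠ 0 ∧ (a + b) ^ d ≠ κ).card := by
    rw [Finset.card_filter, Finset.sum_product]
    refine Finset.sum_congr rfl fun a _ => ?_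
    rw [Finset.card_filter]
  rw [h1]
  calc A.card * B.card = ∑ a ∈ A, B.card := by simp
    _ ≤ ∑ a ∈ A, ((d + 1) + (B.filter fun b => a + b ≠ 0 ∧ (a + b) ^ d ≠ κ).card) := by
        refine Finset.sum_le_sum fun a _ => ?_
        have h2 := Finset.card_filter_add_card_filter_not (s := B)
          (fun b => a + b ≠ 0 ∧ (a + b) ^ d ≠ κ)
        have h3 := good_le B d hd κ a
        omega
    _ = A.card * (d + 1) + ∑ a ∈ A, (B.filter fun b => a + b ≠ 0 ∧ (a + b) ^ d ≠ κ).card := by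
        rw [Finset.sum_add_distrib]; simp

lemma real_n (a n d δ : ℝ) (hn : 0 < n) (han : a ≤ n) (hδ0 : 0 < δ)
    (hd : 9 ≤ δ ^ 2 * d) (hT : (1 + 8 * δ) * d ≤ a * n) : 3 ≤ δ * n := by
  have hdpos : 0 < d := by
    by_contra hcon
    have h1 : d ≤ 0 := not_lt.mp hcon
    have h2 : δ ^ 2 * d ≤ 0 := mul_nonpos_of_nonneg_of_nonpos (by positivity) h1
    linarith
  have h1 : d ≤ n ^ 2 := by
    have h2 : a * n ≤ n * n := mul_le_mul_of_nonneg_right han hn.le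
    have h3 : 0 ≤ 8 * δ * d := by positivity
    nlinarith
  have h2 : 9 ≤ (δ * n) ^ 2 := by
    have h3 : δ ^ 2 * d ≤ δ ^ 2 * n ^ 2 := mul_le_mul_of_nonneg_left h1 (by positivity)
    calc (9 : ℝ) ≤ δ ^ 2 * d := hd
      _ ≤ δ ^ 2 * n ^ 2 := h3
      _ = (δ * n) ^ 2 := by ring
  by_contra hcon
  have h3 : δ * n < 3 := not_le.mp hcon
  have h4 : 0 < δ * n := by positivity
  nlinarith

lemma real_case1 (a n d N δ : ℝ) (ha : 0 < a) (hn : 0 < n) (hδ0 : 0 < δ) (hδ1 : δ ≤ 1 / 8)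
    (hn2 : 3 ≤ δ * n) (hcase : (1 + δ) * d ≤ n) (h2 : a * n ≤ a * (d + 1) + N) :
    2 * δ ^ 2 * (a * n) ≤ N := by
  -- d ≤ n / (1 + δ) ≤ n (1 - 8δ/9)
  have h3 : d ≤ n * (1 - 8 / 9 * δ) := by
    have h4 : n ≤ (1 + δ) * (n * (1 - 8 / 9 * δ)) := by
      have h5 : 1 ≤ (1 + δ) * (1 - 8 / 9 * δ) := by nlinarith
      have := mul_le_mul_of_nonneg_right h5 hn.le
      linarith
    have h5 : (1 + δ) * d ≤ (1 + δ) * (n * (1 - 8 / 9 * δ)) := by linarith
    exact le_of_mul_le_mul_left h5 (by linarith)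
  have h4 : n - d - 1 ≥ 5 / 9 * (δ * n) := by linarith
  have h5 : a * (5 / 9 * (δ * n)) ≤ a * (n - d - 1) := mul_le_mul_of_nonneg_left h4 ha.le
  have h6 : δ * (a * (δ * n)) ≤ 1 / 8 * (a * (δ * n)) :=
    mul_le_mul_of_nonneg_right hδ1 (by positivity)
  have h7 : 0 ≤ a * (δ * n) := by positivity
  have h8 : 2 * δ ^ 2 * (a * n) = 2 * (δ * (a * (δ * n))) := by ring
  rw [h8]
  linarith

lemma real_poly (δ : ℝ) (hδ0 : 0 < δ) (hδ1 : δ ≤ 1 / 8) (n : ℝ) (hn2 : 3 ≤ δ * n) :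
    n ≤ (1 + 8 * δ) * ((n * (1 - 2 * δ) - 2) * (1 - 2 * δ)) := by
  -- n * (4δ(1 - 7δ + 8δ²)) ≥ 2 (1 + 6δ - 16 δ²)
  have h1 : (1 + 8 * δ) * ((n * (1 - 2 * δ) - 2) * (1 - 2 * δ)) - n
      = 4 * (δ * n) * (1 - 7 * δ + 8 * δ ^ 2) - 2 * (1 + 6 * δ - 16 * δ ^ 2) := by ring
  have h2 : 0 ≤ 1 - 7 * δ + 8 * δ ^ 2 := by nlinarith
  have h3 : 3 * (1 - 7 * δ + 8 * δ ^ 2) ≤ (δ * n) * (1 - 7 * δ + 8 * δ ^ 2) :=
    mul_le_mul_of_nonneg_right hn2 h2
  have h4 : 0 ≤ 5 - 48 * δ + 64 * δ ^ 2 := by nlinarith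
  nlinarith

lemma real_case2 (a n d N L r δ : ℝ) (ha : 0 < a) (hn : 0 < n) (hδ0 : 0 < δ)
    (hδ1 : δ ≤ 1 / 8) (hT : (1 + 8 * δ) * d ≤ a * n) (hn2 : 3 ≤ δ * n) (hr1 : δ * n ≤ r)
    (hr2 : r < δ * n + 1) (hLr : L = n - 2 * r)
    (hcore : r * (L * a) + r ≤ r * d + L * N) :
    2 * δ ^ 2 * (a * n) ≤ N := by
  have hrpos : 0 < r := by linarith
  by_contra hcon
  have hN : N < 2 * δ ^ 2 * (a * n) := not_le.mp hcon
  -- N < 2 δ r a
  have h1 : N < 2 * δ * (r * a) := by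
    have h2 := mul_le_mul_of_nonneg_right hr1 ha.le
    have h3 := mul_le_mul_of_nonneg_left h2 (by positivity : (0 : ℝ) ≤ 2 * δ)
    have h4 : 2 * δ * (δ * n * a) = 2 * δ ^ 2 * (a * n) := by ring
    linarith
  have hδn : δ * n ≤ 1 / 8 * n := mul_le_mul_of_nonneg_right hδ1 hn.le
  have hLpos : 0 < L := by
    rw [hLr]; nlinarith
  have h2 : L * N < L * (2 * δ * (r * a)) := mul_lt_mul_of_pos_left h1 hLpos
  have h3 : r * (L * a * (1 - 2 * δ)) < r * d := by nlinarith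
  have h4 : L * a * (1 - 2 * δ) < d := lt_of_mul_lt_mul_left h3 hrpos.le
  have h5 : n * (1 - 2 * δ) - 2 ≤ L := by rw [hLr]; linarith
  have h6 : (n * (1 - 2 * δ) - 2) * a * (1 - 2 * δ) < d := by
    have h7 : (n * (1 - 2 * δ) - 2) * (a * (1 - 2 * δ)) ≤ L * (a * (1 - 2 * δ)) := by
      apply mul_le_mul_of_nonneg_right h5
      apply mul_nonneg ha.le; linarith
    nlinarith
  have h7 := real_poly δ hδ0 hδ1 n hn2
  have h8 : a * n ≤ (1 + 8 * δ) * ((n * (1 - 2 * δ) - 2) * a * (1 - 2 * δ)) := by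
    have := mul_le_mul_of_nonneg_left h7 ha.le
    calc a * n ≤ a * ((1 + 8 * δ) * ((n * (1 - 2 * δ) - 2) * (1 - 2 * δ))) := this
      _ = _ := by ring
  have h9 : (1 + 8 * δ) * ((n * (1 - 2 * δ) - 2) * a * (1 - 2 * δ)) < (1 + 8 * δ) * d :=
    mul_lt_mul_of_pos_left h6 (by linarith)
  linarith

/-- The case `|A| ≤ |B|`. -/
theorem coset_le (p : ℕ) [hp : Fact p.Prime] [CharP K p] (A B : Finset K)
    (hAB : A.card ≤ B.card) (d : ℕ) (h2d : 2 * d < p) (ε : ℝ) (hε : 0 < ε) (hε1 : ε ≤ 1)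
    (hd : 576 ≤ ε ^ 2 * d) (hT : (1 + ε) * d ≤ (A.card : ℝ) * B.card) (κ : K) :
    ε ^ 2 / 32 * ((A.card : ℝ) * B.card)
      ≤ ((A ×ˢ B).filter fun q => q.1 + q.2 ≠ 0 ∧ (q.1 + q.2) ^ d ≠ κ).card := by
  classical
  obtain ⟨δ, hεδ⟩ : ∃ δ : ℝ, ε = 8 * δ := ⟨ε / 8, by ring⟩
  subst hεδ
  have hδ0 : 0 < δ := by linarith
  have hδ1 : δ ≤ 1 / 8 := by linarith
  have hδ2 : (8 * δ) ^ 2 / 32 = 2 * δ ^ 2 := by ring
  rw [hδ2]
  have hd' : 9 ≤ δ ^ 2 * (d : ℝ) := by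
    have : (8 * δ) ^ 2 * (d : ℝ) = 64 * (δ ^ 2 * d) := by ring
    linarith
  have hdpos : (0 : ℝ) < d := by
    by_contra hcon
    have h1 : (d : ℝ) ≤ 0 := not_lt.mp hcon
    have h2 : δ ^ 2 * (d : ℝ) ≤ 0 := mul_nonpos_of_nonneg_of_nonpos (by positivity) h1
    linarith
  have hd0 : 0 < d := by exact_mod_cast hdpos
  have hTpos : (0 : ℝ) < (A.card : ℝ) * B.card := lt_of_lt_of_le (by positivity) hT
  have hapos : (0 : ℝ) < A.card := by
    rcases (Nat.eq_zero_or_pos A.card) with h | h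
    · rw [h] at hTpos; simp at hTpos
    · exact_mod_cast h
  have hnpos : (0 : ℝ) < B.card := by
    rcases (Nat.eq_zero_or_pos B.card) with h | h
    · rw [h] at hTpos; simp at hTpos
    · exact_mod_cast h
  have haN : (A.card : ℝ) ≤ B.card := by exact_mod_cast hAB
  have hn2 : (3 : ℝ) ≤ δ * B.card := real_n _ _ d δ hnpos haN hδ0 hd' hT
  by_cases hcase : (1 + δ) * d ≤ (B.card : ℝ)
  · -- many elements in B
    have h1 := bad_ge_trivial A B d hd0 κ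
    refine real_case1 _ _ d _ δ hapos hnpos hδ0 hδ1 hn2 hcase ?_
    exact_mod_cast h1
  · have hlt : (B.card : ℝ) < (1 + δ) * d := not_le.mp hcase
    obtain ⟨r, hr1, hr2⟩ : ∃ r : ℕ, δ * (B.card : ℝ) ≤ r ∧ (r : ℝ) < δ * B.card + 1 :=
      ⟨⌈δ * (B.card : ℝ)⌉₊, Nat.le_ceil _, Nat.ceil_lt_add_one (by positivity)⟩
    have hr0 : 1 ≤ r := by
      have : (1 : ℝ) ≤ r := by linarith
      exact_mod_cast this
    have hδn : δ * (B.card : ℝ) ≤ 1 / 8 * B.card := mul_le_mul_of_nonneg_right hδ1 hnpos.le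
    have hr4 : 2 * r ≤ B.card := by
      have : (2 : ℝ) * r ≤ B.card := by linarith
      exact_mod_cast this
    obtain ⟨L, hL⟩ : ∃ L, L + 2 * r = B.card := ⟨B.card - 2 * r, by omega⟩
    have hδd : δ * (d : ℝ) ≤ 1 / 8 * d := mul_le_mul_of_nonneg_right hδ1 hdpos.le
    have hrd : r ≤ d := by
      have : (r : ℝ) ≤ d := by linarith
      exact_mod_cast this
    have hLr : (L : ℝ) = B.card - 2 * r := by
      have : (L : ℝ) + 2 * r = B.card := by exact_mod_cast hL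
      linarith
    have hLd : L + r < d := by
      have : (L : ℝ) + r < d := by
        rw [hLr]
        have h1 : (1 - δ) * (B.card : ℝ) ≤ (1 - δ) * ((1 + δ) * d) :=
          mul_le_mul_of_nonneg_left hlt.le (by linarith)
        have h2 : (1 - δ) * ((1 + δ) * (d : ℝ)) = d - δ ^ 2 * d := by ring
        have h3 : 0 < δ ^ 2 * (d : ℝ) := by positivity
        linarith
      exact_mod_cast this
    have hcore := core p A B d r L hL hr0 hrd (by omega) κ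
    have hcore' : (r : ℝ) * ((L : ℝ) * A.card) + r
        ≤ r * d + L * ((A ×ˢ B).filter fun q => q.1 + q.2 ≠ 0 ∧ (q.1 + q.2) ^ d ≠ κ).card := by
      exact_mod_cast hcore
    exact real_case2 _ _ d _ L r δ hapos hnpos hδ0 hδ1 hT hn2 hr1 hr2 hLr hcore'

/-- **Coset theorem.** If `|A||B| ≥ (1+ε)d`, then at least the proportion `ε²/32` of the pairs
satisfies `a + b ≠ 0` and `(a+b)^d ≠ κ`. -/
theorem coset (p : ℕ) [hp : Fact p.Prime] [CharP K p] (A B : Finset K)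
    (d : ℕ) (h2d : 2 * d < p) (ε : ℝ) (hε : 0 < ε) (hε1 : ε ≤ 1)
    (hd : 576 ≤ ε ^ 2 * d) (hT : (1 + ε) * d ≤ (A.card : ℝ) * B.card) (κ : K) :
    ε ^ 2 / 32 * ((A.card : ℝ) * B.card)
      ≤ ((A ×ˢ B).filter fun q => q.1 + q.2 ≠ 0 ∧ (q.1 + q.2) ^ d ≠ κ).card := by
  classical
  rcases le_total A.card B.card with h | h
  · exact coset_le p A B h d h2d ε hε hε1 hd hT κ
  · have h1 := coset_le p B A h d h2d ε hε hε1 hd (by rw [mul_comm (B.card : ℝ)]; exact hT) κ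
    have h2 : ((B ×ˢ A).filter fun q => q.1 + q.2 ≠ 0 ∧ (q.1 + q.2) ^ d ≠ κ).card
        = ((A ×ˢ B).filter fun q => q.1 + q.2 ≠ 0 ∧ (q.1 + q.2) ^ d ≠ κ).card := by
      refine Finset.card_bij (fun q _ => (q.2, q.1)) ?_ ?_ ?_
      · intro q hq
        simp only [Finset.mem_filter, Finset.mem_product] at hq ⊢
        refine ⟨⟨hq.1.2, hq.1.1⟩, ?_⟩
        rw [add_comm]; exact hq.2
      · intro q _ q' _ h3
        simp only [Prod.mk.injEq] at h3
        exact Prod.ext h3.2 h3.1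
      · intro q hq
        simp only [Finset.mem_filter, Finset.mem_product] at hq
        refine ⟨(q.2, q.1), ?_, rfl⟩
        simp only [Finset.mem_filter, Finset.mem_product]
        refine ⟨⟨hq.1.2, hq.1.1⟩, ?_⟩
        rw [add_comm]; exact hq.2
    rw [h2, mul_comm (B.card : ℝ)] at h1
    exact h1

end Pool.Agent.helper12.RS
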