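import Mathlib
import Pool.Agent.helper12.RS.Coset

/-!
From the coset theorem to double character sums.
-/

namespace Pool.Agent.helper12.RS

open Finset

/-- An element where `χ` is `1` is a root of unity of order `(p-1)/ord χ`. -/
lemma pow_eq_one_of_char_eq_one (p : ℕ) [hp : Fact p.Prime] (χ : MulChar (ZMod p) ℂ) (d : ℕ)
    (hd : orderOf χ * d = p - 1) (x : (ZMod p)ˣ) (hx : χ x = 1) : x ^ d = 1 := by
  classical
  set f : (ZMod p)ˣ →* ℂˣ := χ.toUnitHom with hf
  have hker : x ∈ f.ker := by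
    rw [MonoidHom.mem_ker, Units.ext_iff, hf, MulChar.coe_toUnitHom, hx, Units.val_one]
  have hcard : Nat.card f.ker * Nat.card f.range = p - 1 := by
    rw [← Subgroup.index_ker, Subgroup.card_mul_index, Nat.card_eq_fintype_card,
      ZMod.card_units]
  have hord : orderOf χ ∣ Nat.card f.range := by
    apply orderOf_dvd_of_pow_eq_one
    ext y
    have h1 : (f.rangeRestrict y) ^ (Nat.card f.range) = 1 := pow_card_eq_one'
    have h2 : (f y) ^ (Nat.card f.range) = 1 := by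
      have := congrArg (fun z : f.range => (z : ℂˣ)) h1
      simpa using this
    have h3 := congrArg (fun z : ℂˣ => (z : ℂ)) h2
    simp only [Units.val_pow_eq_pow_val, Units.val_one] at h3
    rw [hf, MulChar.coe_toUnitHom] at h3
    rw [MulChar.pow_apply_coe, MulChar.one_apply_coe]
    exact h3
  obtain ⟨t, ht⟩ := hord
  have hpos : 0 < orderOf χ := χ.orderOf_pos
  have hdvd : Nat.card f.ker ∣ d := by
    refine ⟨t, ?_⟩
    have h1 : orderOf χ * d = orderOf χ * (Nat.card f.ker * t) := by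
      rw [hd, ← hcard, ht]; ring
    exact Nat.eq_of_mul_eq_mul_left hpos h1
  obtain ⟨s, hs⟩ := hdvd
  have h1 : (⟨x, hker⟩ : f.ker) ^ (Nat.card f.ker) = 1 := pow_card_eq_one'
  have h2 : x ^ (Nat.card f.ker) = 1 := by
    have := congrArg (fun z : f.ker => (z : (ZMod p)ˣ)) h1
    simpa using this
  rw [hs, pow_mul, h2, one_pow]

/-- An `m`-th root of unity other than `1` has real part at most `cos (2π/m)`. -/
lemma re_le_of_root (m : ℕ) (hm : 0 < m) (z : ℂ) (hz : z ^ m = 1) (hz1 : z ≠ 1) :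
    z.re ≤ Real.cos (2 * Real.pi / m) := by
  have hnorm : ‖z‖ = 1 := by
    have h1 : ‖z‖ ^ m = 1 := by rw [← norm_pow, hz, norm_one]
    exact (pow_eq_one_iff_of_nonneg (norm_nonneg z) (by omega)).mp h1
  have hexp : z = Complex.exp (Complex.arg z * Complex.I) := by
    have := Complex.norm_mul_exp_arg_mul_I z
    rw [hnorm] at this
    simpa using this.symm
  set θ := Complex.arg z with hθ
  have hre : z.re = Real.cos θ := by
    rw [hexp, Complex.exp_ofReal_mul_I_re]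
  have hθ1 : |θ| ≤ Real.pi := Complex.abs_arg_le_pi z
  have hpow : Complex.exp ((m : ℂ) * (θ * Complex.I)) = 1 := by
    rw [Complex.exp_nat_mul, ← hexp, hz]
  obtain ⟨k, hk⟩ := Complex.exp_eq_one_iff.mp hpow
  have hk2 : (m : ℝ) * θ = k * (2 * Real.pi) := by
    have h1 : ((m : ℂ) * θ) * Complex.I = ((k : ℂ) * (2 * Real.pi)) * Complex.I := by
      rw [mul_assoc, hk]; ring
    have h2 := mul_right_cancel₀ Complex.I_ne_zero h1
    exact_mod_cast h2
  have hmpos : (0 : ℝ) < m := by exact_mod_cast hm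
  have hk0 : k ≠ 0 := by
    rintro rfl
    apply hz1
    have h1 : θ = 0 := by
      simp only [Int.cast_zero, zero_mul, mul_eq_zero] at hk2
      rcases hk2 with h | h
      · exact absurd h hmpos.ne'
      · exact h
    rw [hexp, h1]; simp
  have hk3 : (1 : ℝ) ≤ |(k : ℝ)| := by
    have : 1 ≤ |k| := Int.one_le_abs hk0
    exact_mod_cast this
  have habs : 2 * Real.pi ≤ m * |θ| := by
    have h1 : |(m : ℝ) * θ| = |(k : ℝ)| * (2 * Real.pi) := by
      rw [hk2, abs_mul, abs_of_pos (by positivity : (0 : ℝ) < 2 * Real.pi)]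
    rw [abs_mul, abs_of_pos hmpos] at h1
    rw [h1]
    have : (0 : ℝ) < 2 * Real.pi := by positivity
    nlinarith
  rw [hre, ← Real.cos_abs]
  refine Real.cos_le_cos_of_nonneg_of_le_pi (by positivity) hθ1 ?_
  rw [div_le_iff₀ hmpos]
  linarith

/-- The abstract deduction: if, for each nonzero value `ω`, the proportion `η` of the terms is
nonzero and different from `ω`, then the sum has a saving. -/
lemma norm_sum_le {ι : Type*} (S : Finset ι) (u : ι → ℂ) (m : ℕ) (hm : 2 ≤ m)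
    (hu : ∀ i ∈ S, u i = 0 ∨ (u i) ^ m = 1) (η : ℝ) (hη1 : η ≤ 1 / 2)
    (hbad : ∀ j ∈ S, u j ≠ 0 →
      η * S.card ≤ ((S.filter fun i => u i ≠ 0 ∧ u i ≠ u j).card : ℝ)) :
    ‖∑ i ∈ S, u i‖ ≤ (1 - η * Real.sin (Real.pi / m) ^ 2) * S.card := by
  classical
  set s : ℝ := Real.sin (Real.pi / m) ^ 2 with hs
  have hs0 : 0 ≤ s := sq_nonneg _
  have hs1 : s ≤ 1 := Real.sin_sq_le_one _
  have hcos : Real.cos (2 * Real.pi / m) = 1 - 2 * s := by
    rw [hs, mul_div_assoc, Real.cos_two_mul, Real.cos_sq']; ring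
  have hnorm1 : ∀ z : ℂ, z ^ m = 1 → ‖z‖ = 1 := by
    intro z hz
    have h1 : ‖z‖ ^ m = 1 := by rw [← norm_pow, hz, norm_one]
    exact (pow_eq_one_iff_of_nonneg (norm_nonneg z) (by omega)).mp h1
  set P : Finset ι := S.filter fun i => u i ≠ 0 with hP
  have hsumP : ∑ i ∈ S, u i = ∑ i ∈ P, u i := by
    rw [hP, Finset.sum_filter_ne_zero]
  have hPS : (P.card : ℝ) ≤ S.card := by exact_mod_cast Finset.card_filter_le _ _
  have huP : ∀ i ∈ P, (u i) ^ m = 1 := by
    intro i hi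
    rw [hP, Finset.mem_filter] at hi
    exact (hu i hi.1).resolve_left hi.2
  -- pair bound
  have hpair : ∀ i ∈ P, ∀ j ∈ P, (u i * (starRingEnd ℂ) (u j)).re
      ≤ 1 - 2 * s * (if u i ≠ u j then 1 else 0) := by
    intro i hi j hj
    have h1 := huP i hi
    have h2 := huP j hj
    by_cases h3 : u i = u j
    · rw [if_neg (by simp [h3]), h3, Complex.mul_conj, Complex.normSq_eq_norm_sq,
        hnorm1 _ h2]
      simp
    · rw [if_pos h3]
      have hconj : (starRingEnd ℂ) (u j) = (u j)⁻¹ := by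
        rw [Complex.inv_def, Complex.normSq_eq_norm_sq, hnorm1 _ h2]; simp
      have h4 : (u i * (starRingEnd ℂ) (u j)) ^ m = 1 := by
        rw [hconj, mul_pow, inv_pow, h1, h2]; simp
      have h5 : u i * (starRingEnd ℂ) (u j) ≠ 1 := by
        rw [hconj]
        intro h
        apply h3
        have hj0 : u j ≠ 0 := by
          intro h; rw [h, zero_pow (by omega)] at h2; exact zero_ne_one h2
        field_simp at h
        exact h
      have h6 := re_le_of_root m (by omega) _ h4 h5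
      rw [hcos] at h6
      linarith
  -- row bound
  have hrow : ∀ j ∈ P, ∑ i ∈ P, (u i * (starRingEnd ℂ) (u j)).re
      ≤ (1 - 2 * s * η) * S.card := by
    intro j hj
    have hj' := hj
    rw [hP, Finset.mem_filter] at hj'
    have hb := hbad j hj'.1 hj'.2
    have hfil : (S.filter fun i => u i ≠ 0 ∧ u i ≠ u j) = P.filter fun i => u i ≠ u j := by
      rw [hP, Finset.filter_filter]
    rw [hfil] at hb
    calc ∑ i ∈ P, (u i * (starRingEnd ℂ) (u j)).re
        ≤ ∑ i ∈ P, (1 - 2 * s * (if u i ≠ u j then 1 else 0)) :=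
          Finset.sum_le_sum fun i hi => hpair i hi j hj
      _ = P.card - 2 * s * (P.filter fun i => u i ≠ u j).card := by
          rw [Finset.sum_sub_distrib, ← Finset.mul_sum, Finset.sum_boole]
          simp
      _ ≤ (1 - 2 * s * η) * S.card := by
          have := mul_le_mul_of_nonneg_left hb (by positivity : (0 : ℝ) ≤ 2 * s)
          linarith
  -- square of the sum
  have hsq : ‖∑ i ∈ P, u i‖ ^ 2 = ∑ j ∈ P, ∑ i ∈ P, (u i * (starRingEnd ℂ) (u j)).re := by
    have h1 : ((‖∑ i ∈ P, u i‖ ^ 2 : ℝ) : ℂ)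
        = ∑ j ∈ P, ∑ i ∈ P, u i * (starRingEnd ℂ) (u j) := by
      rw [← Complex.normSq_eq_norm_sq, ← Complex.mul_conj, map_sum, Finset.sum_mul_sum,
        Finset.sum_comm]
    have h2 := congrArg Complex.re h1
    rw [Complex.ofReal_re] at h2
    rw [h2, Complex.re_sum]
    refine Finset.sum_congr rfl fun j _ => ?_
    rw [Complex.re_sum]
  have hSc : (0 : ℝ) ≤ S.card := Nat.cast_nonneg _
  have hsη : s * η ≤ 1 / 2 := by nlinarith
  have hbound : ‖∑ i ∈ P, u i‖ ^ 2 ≤ (1 - 2 * s * η) * (S.card : ℝ) ^ 2 := by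
    rw [hsq]
    have hR : 0 ≤ (1 - 2 * s * η) * (S.card : ℝ) := mul_nonneg (by linarith) hSc
    calc ∑ j ∈ P, ∑ i ∈ P, (u i * (starRingEnd ℂ) (u j)).re
        ≤ ∑ _j ∈ P, (1 - 2 * s * η) * (S.card : ℝ) := Finset.sum_le_sum hrow
      _ = P.card * ((1 - 2 * s * η) * (S.card : ℝ)) := by
        rw [Finset.sum_const, nsmul_eq_mul]
      _ ≤ S.card * ((1 - 2 * s * η) * (S.card : ℝ)) := mul_le_mul_of_nonneg_right hPS hR
      _ = (1 - 2 * s * η) * (S.card : ℝ) ^ 2 := by ring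
  rw [hsumP]
  have h6 : (1 - 2 * s * η) ≤ (1 - η * s) ^ 2 := by nlinarith [sq_nonneg (s * η)]
  have h7 : 0 ≤ (1 - η * s) * (S.card : ℝ) := mul_nonneg (by linarith) hSc
  have h8 : ‖∑ i ∈ P, u i‖ ^ 2 ≤ ((1 - η * s) * (S.card : ℝ)) ^ 2 := by
    refine hbound.trans ?_
    rw [mul_pow]
    exact mul_le_mul_of_nonneg_right h6 (by positivity)
  exact (sq_le_sq₀ (norm_nonneg _) h7).mp h8

/-- The double character sum. -/
theorem char_sum (p : ℕ) [hp : Fact p.Prime] (χ : MulChar (ZMod p) ℂ) (hχ : χ ≠ 1)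
    (ε : ℝ) (hε : 0 < ε) (hε1 : ε ≤ 1)
    (hord : 576 * (orderOf χ : ℝ) ≤ ε ^ 2 * ((p : ℝ) - 1)) (A B : Finset (ZMod p))
    (hT : (1 + ε) * ((p : ℝ) - 1) ≤ (orderOf χ : ℝ) * ((A.card : ℝ) * B.card)) :
    ‖∑ a ∈ A, ∑ b ∈ B, χ (a + b)‖
      ≤ (1 - ε ^ 2 / 32 * Real.sin (Real.pi / orderOf χ) ^ 2) * ((A.card : ℝ) * B.card) := by
  classical
  set m := orderOf χ with hm
  have hmpos : 0 < m := χ.orderOf_pos
  have hm2 : 2 ≤ m := by
    have h1 : m ≠ 1 := by
      intro h; rw [hm, orderOf_eq_one_iff] at h; exact hχ h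
    omega
  have hp2 := hp.out.two_le
  have hdvd : m ∣ p - 1 := by
    have := χ.orderOf_dvd_card_sub_one
    rwa [ZMod.card] at this
  obtain ⟨d, hd⟩ := hdvd
  have hmR : (0 : ℝ) < m := by exact_mod_cast hmpos
  have hpd : (p : ℝ) - 1 = m * d := by
    have : (p : ℝ) = ((p - 1 : ℕ) : ℝ) + 1 := by
      rw [Nat.cast_sub (by omega)]; push_cast; ring
    rw [this, hd]; push_cast; ring
  have hT' : (1 + ε) * (d : ℝ) ≤ (A.card : ℝ) * B.card := by
    rw [hpd] at hT
    have h1 : (m : ℝ) * ((1 + ε) * d) ≤ m * ((A.card : ℝ) * B.card) := by linarith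
    exact le_of_mul_le_mul_left h1 hmR
  have hd576 : 576 ≤ ε ^ 2 * d := by
    rw [hpd] at hord
    have h1 : (m : ℝ) * 576 ≤ m * (ε ^ 2 * d) := by linarith
    exact le_of_mul_le_mul_left h1 hmR
  have h2d : 2 * d < p := by
    have : 2 * d ≤ m * d := Nat.mul_le_mul_right d hm2
    omega
  rw [← Finset.sum_product']
  have hcard : ((A ×ˢ B).card : ℝ) = (A.card : ℝ) * B.card := by
    rw [Finset.card_product]; push_cast; ring
  rw [← hcard]
  refine norm_sum_le (A ×ˢ B) (fun q => χ (q.1 + q.2)) m hm2 ?_ (ε ^ 2 / 32)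
    (by nlinarith) ?_
  · intro q _
    by_cases h0 : q.1 + q.2 = 0
    · left; simp only [h0]; exact χ.map_nonunit (by simp)
    · right
      obtain ⟨ζ, hζ1, hζ2⟩ := χ.apply_mem_rootsOfUnity_orderOf h0
      rw [← hζ2]
      have := (mem_rootsOfUnity' (orderOf χ) ζ).mp hζ1
      exact this
  · intro q hq hq0
    change χ (q.1 + q.2) ≠ 0 at hq0
    change ε ^ 2 / 32 * ((A ×ˢ B).card : ℝ)
      ≤ (((A ×ˢ B).filter fun q' => χ (q'.1 + q'.2) ≠ 0 ∧ χ (q'.1 + q'.2) ≠ χ (q.1 + q.2)).card : ℝ)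
    have hc0 : q.1 + q.2 ≠ 0 := by
      intro h; rw [h] at hq0; exact hq0 (χ.map_nonunit (by simp))
    have hco := coset p A B d h2d ε hε hε1 hd576 hT' ((q.1 + q.2) ^ d)
    rw [hcard]
    refine hco.trans ?_
    have hsub : ((A ×ˢ B).filter fun q' => q'.1 + q'.2 ≠ 0 ∧ (q'.1 + q'.2) ^ d ≠ (q.1 + q.2) ^ d)
        ⊆ ((A ×ˢ B).filter fun q' =>
          χ (q'.1 + q'.2) ≠ 0 ∧ χ (q'.1 + q'.2) ≠ χ (q.1 + q.2)) := by
      intro q' hq'
      rw [Finset.mem_filter] at hq' ⊢
      have hc0' : q'.1 + q'.2 ≠ 0 := hq'.2.1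
      set x : (ZMod p)ˣ := Units.mk0 _ hc0 with hx
      set y : (ZMod p)ˣ := Units.mk0 _ hc0' with hy
      refine ⟨hq'.1, ?_, fun heq => hq'.2.2 ?_⟩
      · intro h
        have h1 : IsUnit (χ (q'.1 + q'.2)) := (IsUnit.mk0 _ hc0').map χ
        rw [h] at h1
        exact not_isUnit_zero h1
      have h1 : χ ((y * x⁻¹ : (ZMod p)ˣ) : ZMod p) = 1 := by
        rw [Units.val_mul, map_mul]
        have h2 : χ (y : ZMod p) = χ (x : ZMod p) := heq
        rw [h2, ← map_mul, ← Units.val_mul, mul_inv_cancel, Units.val_one, map_one]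
      have h2 := pow_eq_one_of_char_eq_one p χ d hd.symm (y * x⁻¹) h1
      have h3 : y ^ d = x ^ d := by
        rw [mul_pow, inv_pow] at h2
        exact mul_inv_eq_one.mp h2
      have h4 := congrArg (fun z : (ZMod p)ˣ => (z : ZMod p)) h3
      simp only [Units.val_pow_eq_pow_val] at h4
      exact h4
    exact_mod_cast Finset.card_le_card hsub

end Pool.Agent.helper12.RS
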